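import Pool.Agent.Lib.MP_391708_nt.X.SpecU0
import Pool.Agent.Lib.MP_391708_nt.MR.Basic

/-!
# Theorem X, part U0: module ATY (the number of atypical characters) (helper15)
-/

set_option autoImplicit false

namespace Pool.Agent.Lib.MP391708.X.U0

open Finset Filter Topology Pool.Agent.Lib.MP391708.MR Pool.Agent.Lib.MP391708.X
open scoped ComplexConjugate

namespace ATYM

lemma ev_log (a : ℝ) {b : ℝ} (hb : 0 < b) : ∀ᶠ N : ℝ in atTop, Real.log N ^ a ≤ N ^ b := by
  have h := (isLittleO_log_rpow_rpow_atTop a hb).bound (show (0 : ℝ) < 1 by norm_num)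
  filter_upwards [h, eventually_ge_atTop 1] with N h1 h2
  rw [one_mul, Real.norm_eq_abs, Real.norm_eq_abs,
    abs_of_nonneg (show 0 ≤ N ^ b from Real.rpow_nonneg (by linarith) _)] at h1
  exact (le_abs_self _).trans h1

lemma ev_const (a : ℝ) {b : ℝ} (hb : 0 < b) : ∀ᶠ N : ℝ in atTop, a ≤ N ^ b :=
  (tendsto_rpow_atTop hb).eventually_ge_atTop a

lemma ev_loglog (a : ℝ) : ∀ᶠ N : ℝ in atTop, a ≤ Real.log (Real.log N) :=
  (Real.tendsto_log_atTop.comp Real.tendsto_log_atTop).eventually_ge_atTop a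

lemma ev_small {a : ℝ} (ha : 0 < a) : ∀ᶠ N : ℝ in atTop,
    Real.log (Real.log N) ≤ a * Real.log N := by
  have h := Real.isLittleO_log_id_atTop.bound ha
  have h1 := Real.tendsto_log_atTop.eventually h
  filter_upwards [h1, Real.tendsto_log_atTop.eventually_ge_atTop 0] with N h2 h3
  rw [Real.norm_eq_abs, Real.norm_eq_abs, id, abs_of_nonneg h3] at h2
  exact (le_abs_self _).trans h2

/-- the bound for the parameter `r` and the final inequality -/
lemma main {c' c cP C L : ℝ} {r : ℕ} {D R τ : ℝ} (hc' : 0 < c') (hc : 0 < c) (hcc : 12 * c ≤ c')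
    (hcP : 1 ≤ cP) (hcP' : 12 ≤ c' * cP) (hL : 2 ≤ L) (hL1 : 32 ≤ c' * L)
    (hLL : 12 / 5 ≤ Real.log L) (hLL1 : 192 / 5 ≤ c' * Real.log L)
    (hLL2 : Real.log L ≤ 3 / (10 * cP) * L) (hD : D = L ^ cP) (hR : R = 2 * D)
    (hτ : τ = D ^ (1 - c)) (hRN : Real.log R ≤ 3 / 10 * L) (hC : 0 < C)
    (hCL : 5 * C * L ≤ Real.exp (c' / 8 * L)) (hr : r = ⌈6 / 5 * L / Real.log R⌉₊) :
    1 ≤ r ∧ Real.exp (6 / 5 * L) ≤ R ^ r ∧
      2 * C * (r.factorial : ℝ) ^ 2 * (1 + Real.log (R ^ r)) * (R ^ r) ^ 2 ≤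
        Real.exp (c' * L) * τ ^ (2 * r) := by
  have hL0 : 0 < L := by linarith
  have hl0 : 0 < Real.log L := by linarith
  have hD0 : 0 < D := by rw [hD]; positivity
  have hD1 : 1 ≤ D := by rw [hD]; exact Real.one_le_rpow (by linarith) (by linarith)
  have hR0 : 0 < R := by rw [hR]; positivity
  have hlD : Real.log D = cP * Real.log L := by rw [hD, Real.log_rpow hL0]
  have hlR : Real.log R = Real.log 2 + Real.log D := by
    rw [hR, Real.log_mul (by norm_num) hD0.ne']
  have hl2 : 0 < Real.log 2 := Real.log_pos (by norm_num)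
  have hl2' : Real.log 2 ≤ 1 := by
    have := Real.log_two_lt_d9
    linarith
  have hlR1 : cP * Real.log L ≤ Real.log R := by linarith
  have hlR2 : Real.log L ≤ Real.log R := by nlinarith
  have hlR0 : 0 < Real.log R := by linarith
  have r1 : 6 / 5 * L / Real.log R ≤ r := by rw [hr]; exact Nat.le_ceil _
  have r2 : (r : ℝ) ≤ 6 / 5 * L / Real.log R + 1 := by
    rw [hr]
    exact (Nat.ceil_lt_add_one (by positivity)).le
  have r0 : 1 ≤ r := by
    rw [hr]
    exact Nat.one_le_ceil_iff.2 (by positivity)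
  have r1' : 6 / 5 * L ≤ r * Real.log R := by
    rw [div_le_iff₀ hlR0] at r1
    exact r1
  have r2' : r * Real.log R ≤ 3 / 2 * L := by
    have h1 := mul_le_mul_of_nonneg_right r2 hlR0.le
    have h2 : (6 / 5 * L / Real.log R + 1) * Real.log R = 6 / 5 * L + Real.log R := by
      field_simp
    rw [h2] at h1
    linarith
  have r3 : (r : ℝ) ≤ 6 / 5 * L / Real.log L + 1 := by
    refine r2.trans ?_
    have := div_le_div_of_nonneg_left (show 0 ≤ 6 / 5 * L by positivity) hl0 hlR2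
    linarith
  have r4 : (r : ℝ) ≤ L := by
    have h1 : 6 / 5 * L / Real.log L ≤ L / 2 := by
      rw [div_le_iff₀ hl0]
      nlinarith
    linarith
  have r5 : 2 * (r : ℝ) ≤ c' / 8 * L := by
    have h1 : 6 / 5 * L / Real.log L ≤ c' / 32 * L := by
      rw [div_le_iff₀ hl0]
      nlinarith
    linarith
  have r6 : 2 * (r : ℝ) * Real.log L ≤ c' / 4 * L := by
    have h1 : (r : ℝ) * Real.log L ≤ 6 / 5 * L / cP + Real.log L := by
      have h2 := mul_le_mul_of_nonneg_right r2 hl0.le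
      have h3 : 6 / 5 * L / Real.log R * Real.log L ≤ 6 / 5 * L / cP := by
        rw [div_mul_eq_mul_div, div_le_div_iff₀ hlR0 (by linarith)]
        have := mul_le_mul_of_nonneg_left hlR1 (show 0 ≤ 6 / 5 * L by positivity)
        nlinarith
      rw [add_mul, one_mul] at h2
      linarith
    have h4 : 6 / 5 * L / cP + 3 / (10 * cP) * L = 3 / 2 * (L / cP) := by
      field_simp
      ring
    have h5 : 12 * (L / cP) ≤ c' * L := by
      rw [← mul_div_assoc, div_le_iff₀ (by linarith)]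
      nlinarith
    nlinarith
  refine ⟨r0, ?_, ?_⟩
  · rw [← Real.rpow_natCast, Real.rpow_def_of_pos hR0]
    refine Real.exp_le_exp.2 ?_
    linarith
  · -- the factorial
    have hr0 : (0 : ℝ) < r := by exact_mod_cast r0
    have f1 : (r.factorial : ℝ) ≤ Real.exp (r * Real.log L) := by
      have h1 : (r.factorial : ℝ) ≤ (r : ℝ) ^ r := by exact_mod_cast Nat.factorial_le_pow r
      have h2 : (r : ℝ) ^ r ≤ L ^ r := pow_le_pow_left₀ hr0.le r4 r
      have h3 : L ^ r = Real.exp (r * Real.log L) := by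
        rw [← Real.rpow_natCast, Real.rpow_def_of_pos hL0, mul_comm]
      linarith
    have f2 : (r.factorial : ℝ) ^ 2 ≤ Real.exp (c' / 4 * L) := by
      have h1 : (r.factorial : ℝ) ^ 2 ≤ Real.exp (r * Real.log L) ^ 2 :=
        pow_le_pow_left₀ (Nat.cast_nonneg _) f1 2
      rw [← Real.exp_nat_mul] at h1
      refine h1.trans (Real.exp_le_exp.2 ?_)
      push_cast
      linarith
    -- the logarithm
    have g1 : Real.log (R ^ r) ≤ 3 / 2 * L := by
      rw [Real.log_pow]
      exact r2'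
    have g2 : 2 * C * (1 + Real.log (R ^ r)) ≤ Real.exp (c' / 8 * L) := by
      refine le_trans ?_ hCL
      have h1 : 1 + Real.log (R ^ r) ≤ 5 / 2 * L := by linarith
      have h2 := mul_le_mul_of_nonneg_left h1 (show 0 ≤ 2 * C by positivity)
      linarith
    have g3 : 0 ≤ 1 + Real.log (R ^ r) := by
      have : 0 ≤ Real.log (R ^ r) := by
        rw [Real.log_pow]
        positivity
      linarith
    -- the power
    have p1 : (R ^ r) ^ 2 ≤ Real.exp (3 / 8 * c' * L) * τ ^ (2 * r) := by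
      have e1 : (R ^ r) ^ 2 = Real.exp (2 * r * Real.log R) := by
        rw [← pow_mul, mul_comm r 2, ← Real.rpow_natCast, Real.rpow_def_of_pos hR0]
        congr 1
        push_cast
        ring
      have hτ0 : 0 < τ := by rw [hτ]; positivity
      have e2 : τ ^ (2 * r) = Real.exp (2 * r * ((1 - c) * Real.log D)) := by
        rw [← Real.rpow_natCast, Real.rpow_def_of_pos hτ0, hτ, Real.log_rpow hD0]
        congr 1
        push_cast
        ring
      rw [e1, e2, ← Real.exp_add]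
      refine Real.exp_le_exp.2 ?_
      rw [hlR]
      have h1 : 2 * (r : ℝ) * Real.log 2 ≤ c' / 8 * L := by nlinarith
      have h2 : 2 * (r : ℝ) * (c * Real.log D) ≤ c' / 4 * L := by
        have h3 : (r : ℝ) * Real.log D ≤ 3 / 2 * L := by nlinarith
        have h4 := mul_le_mul_of_nonneg_left h3 (show 0 ≤ 2 * c by positivity)
        nlinarith
      linarith
    have hτ0 : 0 < τ := by rw [hτ]; positivity
    have hτr : 0 < τ ^ (2 * r) := by positivity
    calc 2 * C * (r.factorial : ℝ) ^ 2 * (1 + Real.log (R ^ r)) * (R ^ r) ^ 2 =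
        (r.factorial : ℝ) ^ 2 * (2 * C * (1 + Real.log (R ^ r))) * (R ^ r) ^ 2 := by ring
      _ ≤ Real.exp (c' / 4 * L) * Real.exp (c' / 8 * L) *
          (Real.exp (3 / 8 * c' * L) * τ ^ (2 * r)) := by
        refine mul_le_mul (mul_le_mul f2 g2 (by positivity) (Real.exp_pos _).le) p1
          (by positivity) (by positivity)
      _ = Real.exp (3 / 4 * c' * L) * τ ^ (2 * r) := by
        rw [← mul_assoc, ← Real.exp_add, ← Real.exp_add]
        congr 2
        ring
      _ ≤ Real.exp (c' * L) * τ ^ (2 * r) := by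
        refine mul_le_mul_of_nonneg_right (Real.exp_le_exp.2 ?_) hτr.le
        nlinarith

end ATYM

open ATYM in
/-- **ATY** -/
theorem specATY (hMOT : XV.SpecMOT) : SpecATY := by
  obtain ⟨C, hC, hM⟩ := hMOT
  intro c' hc'
  refine ⟨min (c' / 12) (1 / 2), max 1 (12 / c'), lt_min (by positivity) (by norm_num),
    (min_le_right _ _).trans_lt (by norm_num), le_max_left _ _, ?_⟩
  intro cP hcP cT aK
  set c : ℝ := min (c' / 12) (1 / 2) with hc
  have hc0 : 0 < c := lt_min (by positivity) (by norm_num)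
  have hcc : 12 * c ≤ c' := by
    have : c ≤ c' / 12 := min_le_left _ _
    linarith
  have hcP1 : 1 ≤ cP := (le_max_left _ _).trans hcP
  have hcP2 : 12 ≤ c' * cP := by
    have : 12 / c' ≤ cP := (le_max_right _ _).trans hcP
    rw [div_le_iff₀ hc'] at this
    linarith
  filter_upwards [ev_log (2 * cT) (show (0 : ℝ) < 1 / 40 by norm_num),
    ev_log aK (show (0 : ℝ) < 1 / 40 by norm_num), ev_log cP (show (0 : ℝ) < 1 / 10 by norm_num),
    ev_const 32 (show (0 : ℝ) < 1 / 40 by norm_num),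
    ev_log 1 (show (0 : ℝ) < c' / 16 by positivity),
    ev_const (5 * C) (show (0 : ℝ) < c' / 16 by positivity),
    Real.tendsto_log_atTop.eventually_ge_atTop (max 2 (32 / c')),
    ev_loglog (max (12 / 5) (192 / 5 / c')), ev_small (show (0 : ℝ) < 3 / (10 * cP) by positivity),
    eventually_ge_atTop 1] with N e1 e2 e3 e4 e5 e6 e7 e8 e9 e10
  intro B hB t ht htT P hP
  set L : ℝ := Real.log N with hLd
  have hN0 : 0 < N := by linarith
  have hL2 : 2 ≤ L := (le_max_left _ _).trans e7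
  have hL0 : 0 < L := by linarith
  have hL3 : 32 ≤ c' * L := by
    have : 32 / c' ≤ L := (le_max_right _ _).trans e7
    rw [div_le_iff₀ hc'] at this
    linarith
  have hLL : 12 / 5 ≤ Real.log L := (le_max_left _ _).trans e8
  have hLL1 : 192 / 5 ≤ c' * Real.log L := by
    have : 192 / 5 / c' ≤ Real.log L := (le_max_right _ _).trans e8
    rw [div_le_iff₀ hc'] at this
    linarith
  have hD0 : 0 < L ^ cP := by positivity
  have hD1 : 1 ≤ L ^ cP := Real.one_le_rpow (by linarith) (by linarith)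
  have hexp : ∀ x : ℝ, N ^ x = Real.exp (x * L) := by
    intro x
    rw [Real.rpow_def_of_pos hN0, mul_comm]
  have hRN : Real.log (2 * L ^ cP) ≤ 3 / 10 * L := by
    have h1 : 2 * L ^ cP ≤ N ^ (3 / 10 : ℝ) := by
      have h2 : (2 : ℝ) ≤ N ^ (1 / 5 : ℝ) := by
        have h3 : N ^ (1 / 40 : ℝ) ≤ N ^ (1 / 5 : ℝ) :=
          Real.rpow_le_rpow_of_exponent_le e10 (by norm_num)
        linarith
      calc 2 * L ^ cP ≤ N ^ (1 / 5 : ℝ) * N ^ (1 / 10 : ℝ) :=
            mul_le_mul h2 e3 hD0.le (by positivity)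
        _ = N ^ (3 / 10 : ℝ) := by
          rw [← Real.rpow_add hN0]
          norm_num
    have h4 := Real.log_le_log (by positivity) h1
    rwa [Real.log_rpow hN0] at h4
  have hCL : 5 * C * L ≤ Real.exp (c' / 8 * L) := by
    rw [Real.rpow_one] at e5
    calc 5 * C * L ≤ N ^ (c' / 16) * N ^ (c' / 16) :=
          mul_le_mul e6 e5 hL0.le (by positivity)
      _ = N ^ (c' / 8) := by
        rw [← Real.rpow_add hN0]
        congr 1
        ring
      _ = _ := hexp _
  obtain ⟨hr1, hr2, hr3⟩ := main (r := ⌈6 / 5 * L / Real.log (2 * L ^ cP)⌉₊) hc' hc0 hcc hcP1 hcP2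
    hL2 hL3 hLL hLL1 e9 rfl rfl rfl hRN hC hCL rfl
  set r : ℕ := ⌈6 / 5 * L / Real.log (2 * L ^ cP)⌉₊ with hr
  -- the moment inequality
  have hKm1 : 1 ≤ km N B aK := Nat.one_le_ceil_iff.2 (by positivity)
  have hKm2 : (km N B aK : ℝ) ≤ L ^ aK * N + 1 := by
    have h1 : (km N B aK : ℝ) ≤ L ^ aK * (N / B) + 1 := (Nat.ceil_lt_add_one (by positivity)).le
    have h2 : N / B ≤ N := div_le_self hN0.le hB
    have h3 := mul_le_mul_of_nonneg_left h2 (show 0 ≤ L ^ aK by positivity)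
    linarith
  have hτ0 : 0 < (L ^ cP) ^ (1 - c) := by positivity
  have hmot := hM (2 * L ^ cP) ((L ^ cP) ^ (1 - c)) t (km N B aK) r P ht hKm1 hr1 (by linarith)
    hτ0 hP
  have hR0 : 0 < (2 * L ^ cP) ^ r := by positivity
  have ht2 : (t : ℝ) ^ 2 ≤ 16 * L ^ (2 * cT) := by
    have h1 : (t : ℝ) ^ 2 ≤ (4 * L ^ cT) ^ 2 := pow_le_pow_left₀ (Nat.cast_nonneg _) htT 2
    have h2 : (4 * L ^ cT) ^ 2 = 16 * L ^ (2 * cT) := by
      rw [mul_pow, ← Real.rpow_natCast (L ^ cT) 2, ← Real.rpow_mul hL0.le]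
      norm_num
      rw [mul_comm cT 2]
    linarith
  have htK : (t : ℝ) ^ 2 * (km N B aK) ≤ (2 * L ^ cP) ^ r := by
    refine le_trans ?_ hr2
    rw [← hexp]
    have h1 : (km N B aK : ℝ) ≤ 2 * (N ^ (1 / 40 : ℝ) * N) := by
      have h2 := mul_le_mul_of_nonneg_right e2 hN0.le
      have h3 : 1 ≤ N ^ (1 / 40 : ℝ) * N := by nlinarith
      linarith
    calc (t : ℝ) ^ 2 * (km N B aK) ≤ (16 * N ^ (1 / 40 : ℝ)) * (2 * (N ^ (1 / 40 : ℝ) * N)) := by
          refine mul_le_mul (ht2.trans (by linarith)) h1 (Nat.cast_nonneg _) (by positivity)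
      _ = 32 * (N ^ (1 / 40 : ℝ) * N ^ (1 / 40 : ℝ) * N) := by ring
      _ ≤ N ^ (1 / 40 : ℝ) * (N ^ (1 / 40 : ℝ) * N ^ (1 / 40 : ℝ) * N) :=
          mul_le_mul_of_nonneg_right e4 (by positivity)
      _ = N ^ (1 / 40 + (1 / 40 + 1 / 40 + 1) : ℝ) := by
          rw [Real.rpow_add hN0, Real.rpow_add hN0, Real.rpow_add hN0, Real.rpow_one]
      _ ≤ N ^ (6 / 5 : ℝ) := Real.rpow_le_rpow_of_exponent_le e10 (by norm_num)
  have hlog0 : 0 ≤ Real.log ((2 * L ^ cP) ^ r) := by
    rw [Real.log_pow]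
    have : 0 ≤ Real.log (2 * L ^ cP) := Real.log_nonneg (by linarith)
    positivity
  have hfin : ((XV.atyp t (km N B aK) ((L ^ cP) ^ (1 - c)) P).card : ℝ) *
      ((L ^ cP) ^ (1 - c)) ^ (2 * r) ≤ Real.exp (c' * L) * ((L ^ cP) ^ (1 - c)) ^ (2 * r) := by
    refine hmot.trans (le_trans ?_ hr3)
    have h1 : ((2 * L ^ cP) ^ r) ^ 2 + (t : ℝ) ^ 2 * (km N B aK) * (2 * L ^ cP) ^ r ≤
        2 * ((2 * L ^ cP) ^ r) ^ 2 := by
      have h2 := mul_le_mul_of_nonneg_right htK hR0.le
      nlinarith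
    have h3 := mul_le_mul_of_nonneg_left h1
      (show 0 ≤ C * (r.factorial : ℝ) ^ 2 * (1 + Real.log ((2 * L ^ cP) ^ r)) by positivity)
    linarith
  rw [hexp]
  exact le_of_mul_le_mul_right hfin (by positivity)

end Pool.Agent.Lib.MP391708.X.U0
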