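import Pool.Agent.Lib.MP_391708_nt.X.SpecU0
import Pool.Agent.Lib.MP_391708_nt.MR.Basic

/-!
# MP_391708, Theorem X, part U0, module REG: the variance is the left side of `XV.SpecVAR`
-/

set_option autoImplicit false

namespace Pool.Agent.Lib.MP391708.X.U0

open Finset Filter Topology Pool.Agent.Lib.MP391708.MR Pool.Agent.Lib.MP391708.X
open scoped ComplexConjugate

namespace REGM

lemma eta_kap (p : Par) (U : Finset Ix) (m : ℕ) (z : Gi) :
    Eta p z - Kap p U z = ∑ j ∈ Jc p m, hc p U m j z := by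
  classical
  unfold Eta Kap hc
  rw [← sum_sub_distrib]
  simp_rw [← sum_sub_distrib]
  rw [← sum_product' (I4 p) (I2 p) (fun v4 v2 => eta p v4 v2 z - kap p U v4 v2 z)]
  symm
  apply sum_fiberwise_of_maps_to
  intro v hv
  unfold Jc
  exact mem_image_of_mem (fun v : ℕ × ℕ => v.1 / m + v.2 / m) hv

lemma inner {p : Par} (hP : 1 ≤ p.P) (hNT : 0 ≤ p.N * p.T) (U : Finset Ix) (m : ℕ)
    (hsup : ∀ (j : ℕ) (z : Gi), hc p U m j z ≠ 0 → z ∈ Sc p m j) (ω π : Gi) (b : ℕ) :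
    (by classical exact ∑ z ∈ (disc (p.N * p.T)).filter (On (ω * π) b), (Eta p z - Kap p U z)) =
      ∑ j ∈ Jc p m, ∑ z ∈ (Sc p m j).filter (fun z => (ω * (π * z)).im = (b : ℤ) ∧
        0 < (ω * (π * z)).re), hc p U m j z := by
  classical
  rw [sum_congr rfl (fun z _ => eta_kap p U m z), sum_comm]
  apply sum_congr rfl
  intro j _
  symm
  apply sum_subset
  · intro z hz
    rw [mem_filter] at hz ⊢
    obtain ⟨hz1, hz2⟩ := hz
    unfold Sc at hz1
    rw [mem_filter, mem_disc] at hz1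
    refine ⟨?_, ?_⟩
    · rw [mem_disc]
      refine ⟨hz1.1.1, hz1.1.2.trans ?_⟩
      exact div_le_self hNT hP
    · unfold On
      rw [mul_assoc]
      exact hz2
  · intro z hz hz'
    by_contra h
    apply hz'
    rw [mem_filter] at hz ⊢
    refine ⟨hsup j z h, ?_⟩
    have := hz.2
    unfold On at this
    rw [mul_assoc] at this
    exact this

lemma sum_Ioc {B : ℝ} (hB : 0 ≤ B) (f : ℤ → ℝ) :
    ∑ b ∈ Ioc ⌊B⌋ ⌊2 * B⌋, f b = ∑ b ∈ Ioc ⌊B⌋₊ ⌊2 * B⌋₊, f (b : ℤ) := by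
  have e1 : ⌊B⌋ = ((⌊B⌋₊ : ℕ) : ℤ) := (Int.natCast_floor_eq_floor hB).symm
  have e2 : ⌊2 * B⌋ = ((⌊2 * B⌋₊ : ℕ) : ℤ) :=
    (Int.natCast_floor_eq_floor (by positivity)).symm
  rw [e1, e2]
  symm
  apply sum_bij (fun (b : ℕ) _ => (b : ℤ))
  · intro b hb
    rw [mem_Ioc] at hb ⊢
    exact ⟨by exact_mod_cast hb.1, by exact_mod_cast hb.2⟩
  · intro a _ b _ h
    exact_mod_cast h
  · intro b hb
    rw [mem_Ioc] at hb
    refine ⟨b.toNat, ?_, ?_⟩
    · rw [mem_Ioc]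
      omega
    · omega
  · intro b _
    rfl

lemma maps_Ic (p : Par) (hh : 0 ≤ p.h) (hP : 0 < p.P) (m : ℕ) :
    ∀ π ∈ GP p.P (2 * p.P), ⌊p.h * Real.log (nm π)⌋₊ / m ∈ Ic p m := by
  classical
  intro π hπ
  unfold Ic
  apply mem_image_of_mem (fun v : ℕ => v / m)
  unfold VV
  rw [mem_GP] at hπ
  rw [mem_Icc]
  constructor
  · apply Nat.floor_le_floor
    exact mul_le_mul_of_nonneg_left (Real.log_le_log hP hπ.2.2.2.2.1.le) hh
  · apply Nat.floor_le_floor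
    apply mul_le_mul_of_nonneg_left _ hh
    exact Real.log_le_log (hP.trans hπ.2.2.2.2.1) hπ.2.2.2.2.2

lemma outer {p : Par} (hh : 0 ≤ p.h) (hP : 0 < p.P) (m : ℕ) (f : Gi → ℂ) :
    ∑ π ∈ GP p.P (2 * p.P), f π = ∑ i ∈ Ic p m, ∑ π ∈ Pc p m i, f π := by
  classical
  symm
  unfold Pc
  exact sum_fiberwise_of_maps_to (maps_Ic p hh hP m) f

lemma line {p : Par} (hh : 0 ≤ p.h) (hP : 1 ≤ p.P) (hNT : 0 ≤ p.N * p.T) (U : Finset Ix) (m : ℕ)
    (hsup : ∀ (j : ℕ) (z : Gi), hc p U m j z ≠ 0 → z ∈ Sc p m j) (z1 : Gi) (b : ℕ) :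
    ls p z1 b (fun z => Eta p z - Kap p U z) =
      ∑ i ∈ Ic p m, ∑ j ∈ Jc p m, ∑ π ∈ Pc p m i,
        ∑ z ∈ (Sc p m j).filter (fun z => (z1 * (π * z)).im = (b : ℤ) ∧ 0 < (z1 * (π * z)).re),
          hc p U m j z := by
  classical
  unfold ls
  rw [outer hh (by linarith) m]
  apply sum_congr rfl
  intro i _
  rw [sum_comm]
  apply sum_congr rfl
  intro π _
  have := inner hP hNT U m hsup z1 π b
  rw [← this]

end REGM

open REGM in
theorem specREG (hSUP : SpecSUP) : SpecREG := by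
  classical
  intro cT cP ch cw ch0 aQ aU h1 h2 h3 h4 h5 h6
  filter_upwards [hSUP cT cP ch cw ch0 aQ aU h1 h2 h3 h4 h5 h6,
    Real.tendsto_log_atTop.eventually_ge_atTop 1, eventually_ge_atTop 0] with N hN hL hN0
  intro B F U hB hF hU
  have hs := (hN F U hF hU).1
  have hP : 1 ≤ (par N cT cP ch cw).P := Real.one_le_rpow hL (by linarith)
  have hh : 0 ≤ (par N cT cP ch cw).h := Real.rpow_nonneg (by linarith) _
  have hNT : 0 ≤ (par N cT cP ch cw).N * (par N cT cP ch cw).T :=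
    mul_nonneg hN0 (Real.rpow_nonneg (by linarith) _)
  unfold Var
  rw [sum_comm]
  apply sum_congr rfl
  intro z1 _
  rw [sum_Ioc (by linarith)]
  apply sum_congr rfl
  intro b _
  rw [line hh hP hNT U (mm N ch ch0) hs z1 b]

end Pool.Agent.Lib.MP391708.X.U0
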